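import Pool.Agent.J4H62.PF.Jobs

/-!
Job C of project PF: contraction in terms of lists of pairs.
-/

namespace Pool.Agent.J4H23.PF

open Pool.Agent.J4H62.PF Pool.Agent.H603R2

theorem coll_snoc {V : Type*} [DecidableEq V] (F : List (V × V)) (e : V × V) (a : V) :
    coll (F ++ [e]) a = if coll F a = coll F e.2 then coll F e.1 else coll F a := by
  unfold coll
  rw [List.foldl_append]
  rfl

/-- the edges of a list of pairs -/
def edges {V : Type*} (F : List (V × V)) : Set (Sym2 V) := {x | ∃ e ∈ F, s(e.1, e.2) = x}

theorem coll_mono {V : Type*} [DecidableEq V] (F : List (V × V)) (e : V × V) {a b : V}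
    (h : coll F a = coll F b) : coll (F ++ [e]) a = coll (F ++ [e]) b := by
  rw [coll_snoc, coll_snoc, h]

theorem coll_edge {V : Type*} [DecidableEq V] (F : List (V × V)) :
    ∀ e ∈ F, coll F e.1 = coll F e.2 := by
  induction F using List.reverseRecOn with
  | nil => intro e he; simp at he
  | append_singleton F e ih =>
    intro e' he'
    rw [List.mem_append] at he'
    rcases he' with he' | he'
    · exact coll_mono F e (ih e' he')
    · have : e' = e := by simpa using he'
      subst this
      rw [coll_snoc, coll_snoc, if_pos rfl]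
      split_ifs <;> rfl

theorem reach_of_coll {V : Type*} [DecidableEq V] (F : List (V × V)) :
    ∀ a b, coll F a = coll F b → (SimpleGraph.fromEdgeSet (edges F)).Reachable a b := by
  induction F using List.reverseRecOn with
  | nil =>
    intro a b h
    have : a = b := h
    subst this
    exact SimpleGraph.Reachable.refl _
  | append_singleton F e ih =>
    have hle : SimpleGraph.fromEdgeSet (edges F) ≤ SimpleGraph.fromEdgeSet (edges (F ++ [e])) := by
      apply SimpleGraph.fromEdgeSet_mono
      rintro x ⟨e', he', rfl⟩
      exact ⟨e', List.mem_append_left _ he', rfl⟩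
    have ih' : ∀ a b, coll F a = coll F b →
        (SimpleGraph.fromEdgeSet (edges (F ++ [e]))).Reachable a b := fun a b h =>
      (ih a b h).mono hle
    have hed : (SimpleGraph.fromEdgeSet (edges (F ++ [e]))).Reachable e.1 e.2 := by
      by_cases hne : e.1 = e.2
      · rw [hne]
      · apply SimpleGraph.Adj.reachable
        rw [SimpleGraph.fromEdgeSet_adj]
        exact ⟨⟨e, by simp, rfl⟩, hne⟩
    intro a b h
    rw [coll_snoc, coll_snoc] at h
    by_cases ha : coll F a = coll F e.2
    · by_cases hb : coll F b = coll F e.2
      · exact ih' a b (ha.trans hb.symm)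
      · rw [if_pos ha, if_neg hb] at h
        exact ((ih' a e.2 ha).trans hed.symm).trans (ih' e.1 b h)
    · by_cases hb : coll F b = coll F e.2
      · rw [if_neg ha, if_pos hb] at h
        exact ((ih' a e.1 h).trans hed).trans (ih' e.2 b hb.symm)
      · rw [if_neg ha, if_neg hb] at h
        exact ih' a b h

theorem coll_of_reach {V : Type*} [DecidableEq V] (F : List (V × V)) (a b : V)
    (h : (SimpleGraph.fromEdgeSet (edges F)).Reachable a b) : coll F a = coll F b := by
  obtain ⟨p⟩ := h
  induction p with
  | nil => rfl
  | cons hadj p ih =>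
    rw [SimpleGraph.fromEdgeSet_adj] at hadj
    obtain ⟨⟨e, he, hx⟩, -⟩ := hadj
    have h1 := coll_edge F e he
    rw [Sym2.eq_iff] at hx
    rcases hx with ⟨h2, h3⟩ | ⟨h2, h3⟩
    · rw [← h2, h1, h3, ih]
    · rw [← h3, ← h1, h2, ih]

theorem coll_iff {V : Type*} [DecidableEq V] (F : List (V × V)) (a b : V) :
    (SimpleGraph.fromEdgeSet (edges F)).connectedComponentMk a =
      (SimpleGraph.fromEdgeSet (edges F)).connectedComponentMk b ↔ coll F a = coll F b := by
  rw [SimpleGraph.ConnectedComponent.eq]
  exact ⟨coll_of_reach F a b, reach_of_coll F a b⟩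

theorem contract_adj {V : Type*} [DecidableEq V] (G : SimpleGraph V) (F : List (V × V)) (a b : V) :
    (contract G (edges F)).Adj ((SimpleGraph.fromEdgeSet (edges F)).connectedComponentMk a)
      ((SimpleGraph.fromEdgeSet (edges F)).connectedComponentMk b) ↔ qadj G.Adj (coll F) a b := by
  change (_ ≠ _ ∧ ∃ u v, _ ∧ _ ∧ _) ↔ _
  unfold qadj
  constructor
  · rintro ⟨hne, u, v, hu, hv, huv⟩
    refine ⟨fun h => hne ((coll_iff F a b).mpr h), u, v, (coll_iff F _ _).mp hu,
      (coll_iff F _ _).mp hv, huv⟩
  · rintro ⟨hne, u, v, hu, hv, huv⟩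
    exact ⟨fun h => hne ((coll_iff F a b).mp h), u, v, (coll_iff F _ _).mpr hu,
      (coll_iff F _ _).mpr hv, huv⟩

/-- a graph without induced path on four vertices -/
theorem free_iff {V : Type*} (G : SimpleGraph V) :
    Free (SimpleGraph.pathGraph 4) G ↔ ∀ a b c d, ¬ pat G.Adj a b c d := by
  constructor
  · intro h a b c d hp
    obtain ⟨hab, hbc, hcd, hac, hbd, had⟩ := hp
    have nab := hab.ne
    have nbc := hbc.ne
    have ncd := hcd.ne
    have nac : a ≠ c := by rintro rfl; exact had hcd
    have nad : a ≠ d := by rintro rfl; exact hac hcd.symm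
    have nbd : b ≠ d := by rintro rfl; exact had hab
    apply h.false
    refine ⟨⟨![a, b, c, d], ?_⟩, ?_⟩
    · intro i j hij
      fin_cases i <;> fin_cases j <;> simp_all [Ne.symm]
    · intro i j
      rw [SimpleGraph.pathGraph_adj]
      change G.Adj (![a, b, c, d] i) (![a, b, c, d] j) ↔ _
      have hba := hab.symm
      have hcb := hbc.symm
      have hdc := hcd.symm
      have hca : ¬ G.Adj c a := fun h => hac h.symm
      have hdb : ¬ G.Adj d b := fun h => hbd h.symm
      have hda : ¬ G.Adj d a := fun h => had h.symm
      fin_cases i <;> fin_cases j <;> simp_all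
  · intro h
    refine ⟨fun f => h (f 0) (f 1) (f 2) (f 3) ?_⟩
    refine ⟨?_, ?_, ?_, ?_, ?_, ?_⟩
    · rw [f.map_adj_iff, SimpleGraph.pathGraph_adj]; decide
    · rw [f.map_adj_iff, SimpleGraph.pathGraph_adj]; decide
    · rw [f.map_adj_iff, SimpleGraph.pathGraph_adj]; decide
    · rw [f.map_adj_iff, SimpleGraph.pathGraph_adj]; decide
    · rw [f.map_adj_iff, SimpleGraph.pathGraph_adj]; decide
    · rw [f.map_adj_iff, SimpleGraph.pathGraph_adj]; decide

theorem free_contract {V : Type*} [DecidableEq V] (G : SimpleGraph V) (F : List (V × V)) :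
    Free (SimpleGraph.pathGraph 4) (contract G (edges F)) ↔
      ∀ a b c d, ¬ pat (qadj G.Adj (coll F)) a b c d := by
  rw [free_iff]
  constructor
  · intro h a b c d hp
    apply h ((SimpleGraph.fromEdgeSet (edges F)).connectedComponentMk a)
      ((SimpleGraph.fromEdgeSet (edges F)).connectedComponentMk b)
      ((SimpleGraph.fromEdgeSet (edges F)).connectedComponentMk c)
      ((SimpleGraph.fromEdgeSet (edges F)).connectedComponentMk d)
    unfold pat at hp ⊢
    rw [contract_adj, contract_adj, contract_adj, contract_adj, contract_adj, contract_adj]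
    exact hp
  · intro h A B C D
    induction A using SimpleGraph.ConnectedComponent.ind with | _ a
    induction B using SimpleGraph.ConnectedComponent.ind with | _ b
    induction C using SimpleGraph.ConnectedComponent.ind with | _ c
    induction D using SimpleGraph.ConnectedComponent.ind with | _ d
    intro hp
    apply h a b c d
    unfold pat at hp ⊢
    rw [contract_adj, contract_adj, contract_adj, contract_adj, contract_adj, contract_adj] at hp
    exact hp

theorem t_C : S_C := by
  intro n G k
  constructor
  · rintro ⟨F, hF, hk, hfree⟩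
    refine ⟨F.toList.map fun x => x.out, by simpa using hk, ?_, ?_⟩
    · intro e he
      rw [List.mem_map] at he
      obtain ⟨x, hx, rfl⟩ := he
      have h1 : x ∈ G.edgeSet := hF (by simpa using hx)
      have h2 : s(x.out.1, x.out.2) = x := x.out_eq
      rw [← h2, SimpleGraph.mem_edgeSet] at h1
      exact h1
    · rw [← free_contract]
      have h3 : edges (F.toList.map fun x => x.out) = (F : Set (Sym2 (Fin n))) := by
        ext y
        constructor
        · rintro ⟨e, he, rfl⟩
          rw [List.mem_map] at he
          obtain ⟨x, hx, rfl⟩ := he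
          have h2 : s(x.out.1, x.out.2) = x := x.out_eq
          rw [h2]
          simpa using hx
        · intro hy
          refine ⟨y.out, ?_, y.out_eq⟩
          rw [List.mem_map]
          exact ⟨y, by simpa using hy, rfl⟩
      rw [h3]
      exact hfree
  · rintro ⟨F, hk, hF, hfree⟩
    classical
    rw [← free_contract] at hfree
    have h3 : (((F.map fun e => s(e.1, e.2)).toFinset : Finset (Sym2 (Fin n))) :
        Set (Sym2 (Fin n))) = edges F := by
      ext y
      simp only [List.coe_toFinset, List.mem_map, edges]
    refine ⟨(F.map fun e => s(e.1, e.2)).toFinset, ?_, ?_, ?_⟩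
    · rw [h3]
      rintro x ⟨e, he, rfl⟩
      exact hF e he
    · refine (List.toFinset_card_le _).trans ?_
      simpa using hk
    · rw [h3]
      exact hfree

end Pool.Agent.J4H23.PF
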