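import Pool.Agent.J4H62.PF.Jobs

/-!
Job G1 of project PF: reading the adjacency matrix.
-/

namespace Pool.Agent.J4H23.PF

open Pool.Agent.J4H62.PF Pool.Agent.H603R2

theorem flat_get {α : Type} (n : ℕ) (f : α → List Bool) (hf : ∀ a, (f a).length = n)
    (L : List α) : ∀ (u v : ℕ), v < n →
      (L.flatMap f)[u * n + v]? = (L[u]?).bind fun a => (f a)[v]? := by
  induction L with
  | nil => intro u v _; simp
  | cons a L ih =>
    intro u v hv
    rw [List.flatMap_cons]
    cases u with
    | zero =>
      rw [Nat.zero_mul, Nat.zero_add, List.getElem?_append_left (by rw [hf]; exact hv)]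
      simp
    | succ u =>
      have h1 : (u + 1) * n + v = n + (u * n + v) := by ring
      rw [h1, List.getElem?_append_right (by rw [hf]; omega), hf]
      have h2 : n + (u * n + v) - n = u * n + v := by omega
      rw [h2, ih u v hv]
      simp

theorem t_G1 : S_G1 := by
  intro n G u v
  classical
  unfold adjM
  rw [Bool.and_eq_true, Bool.and_eq_true, decide_eq_true_iff, decide_eq_true_iff]
  constructor
  · rintro ⟨⟨hu, hv⟩, h⟩
    refine ⟨hu, hv, ?_⟩
    unfold adjBits at h
    rw [List.getD_eq_getElem?_getD, flat_get n _ (by intro a; simp) _ u v hv] at h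
    have h1 : (List.finRange n)[u]? = some (⟨u, hu⟩ : Fin n) := by
      rw [List.getElem?_eq_getElem (by simpa using hu)]
      simp
    have h2 : (List.finRange n)[v]? = some (⟨v, hv⟩ : Fin n) := by
      rw [List.getElem?_eq_getElem (by simpa using hv)]
      simp
    rw [h1, Option.bind_some, List.getElem?_map, h2] at h
    simpa using h
  · rintro ⟨hu, hv, h⟩
    refine ⟨⟨hu, hv⟩, ?_⟩
    unfold adjBits
    rw [List.getD_eq_getElem?_getD, flat_get n _ (by intro a; simp) _ u v hv]
    have h1 : (List.finRange n)[u]? = some (⟨u, hu⟩ : Fin n) := by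
      rw [List.getElem?_eq_getElem (by simpa using hu)]
      simp
    have h2 : (List.finRange n)[v]? = some (⟨v, hv⟩ : Fin n) := by
      rw [List.getElem?_eq_getElem (by simpa using hv)]
      simp
    rw [h1, Option.bind_some, List.getElem?_map, h2]
    simpa using h

end Pool.Agent.J4H23.PF
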