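import Pool.Agent.J4H62.PF.Jobs

/-!
Job G2 of project PF: the greedy packing is maximal.
-/

namespace Pool.Agent.J4H23.PF

open Pool.Agent.J4H62.PF

theorem packStep_sub (adj : ℕ → ℕ → Bool) (S : List ℕ) (t : ℕ × ℕ × ℕ × ℕ) :
    ∀ v ∈ S, v ∈ packStep adj S t := by
  intro v hv
  unfold packStep
  split_ifs
  · simp only [List.mem_cons]; tauto
  · exact hv

theorem fold_sub (adj : ℕ → ℕ → Bool) (l : List (ℕ × ℕ × ℕ × ℕ)) :
    ∀ S : List ℕ, ∀ v ∈ S, v ∈ l.foldl (packStep adj) S := by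
  induction l with
  | nil => intro S v hv; exact hv
  | cons t l ih => intro S v hv; exact ih _ v (packStep_sub adj S t v hv)

theorem fold_max (adj : ℕ → ℕ → Bool) (l : List (ℕ × ℕ × ℕ × ℕ)) :
    ∀ S : List ℕ, ∀ t ∈ l, t.1 ∉ l.foldl (packStep adj) S → t.2.1 ∉ l.foldl (packStep adj) S →
      t.2.2.1 ∉ l.foldl (packStep adj) S → t.2.2.2 ∉ l.foldl (packStep adj) S →
      isP4 adj t.1 t.2.1 t.2.2.1 t.2.2.2 = false := by
  induction l with
  | nil => intro S t ht; simp at ht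
  | cons t' l ih =>
    intro S t ht h1 h2 h3 h4
    rw [List.mem_cons] at ht
    rcases ht with rfl | ht
    · rw [List.foldl_cons] at h1 h2 h3 h4
      by_contra hcon
      rw [Bool.not_eq_false] at hcon
      apply h1
      apply fold_sub
      have n1 : t.1 ∉ S := fun h => h1 (fold_sub _ _ _ _ (packStep_sub _ _ _ _ h))
      have n2 : t.2.1 ∉ S := fun h => h2 (fold_sub _ _ _ _ (packStep_sub _ _ _ _ h))
      have n3 : t.2.2.1 ∉ S := fun h => h3 (fold_sub _ _ _ _ (packStep_sub _ _ _ _ h))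
      have n4 : t.2.2.2 ∉ S := fun h => h4 (fold_sub _ _ _ _ (packStep_sub _ _ _ _ h))
      unfold packStep
      rw [if_pos ⟨hcon, n1, n2, n3, n4⟩]
      simp
    · exact ih _ t ht h1 h2 h3 h4

theorem mem_quads (n a b c d : ℕ) :
    (a, b, c, d) ∈ quads n ↔ a < n ∧ b < n ∧ c < n ∧ d < n := by
  unfold quads
  simp only [List.mem_flatMap, List.mem_map, List.mem_range, Prod.mk.injEq]
  constructor
  · rintro ⟨a', ha, b', hb, c', hc, d', hd, rfl, rfl, rfl, rfl⟩
    exact ⟨ha, hb, hc, hd⟩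
  · rintro ⟨ha, hb, hc, hd⟩
    exact ⟨a, ha, b, hb, c, hc, d, hd, rfl, rfl, rfl, rfl⟩

theorem fold_bound (adj : ℕ → ℕ → Bool) (n : ℕ) (l : List (ℕ × ℕ × ℕ × ℕ))
    (hl : ∀ t ∈ l, t.1 < n ∧ t.2.1 < n ∧ t.2.2.1 < n ∧ t.2.2.2 < n) :
    ∀ S : List ℕ, (∀ v ∈ S, v < n) → ∀ v ∈ l.foldl (packStep adj) S, v < n := by
  induction l with
  | nil => intro S hS; exact hS
  | cons t l ih =>
    intro S hS
    rw [List.foldl_cons]
    apply ih (fun t' ht' => hl t' (List.mem_cons_of_mem _ ht'))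
    obtain ⟨h1, h2, h3, h4⟩ := hl t (List.mem_cons_self)
    intro v hv
    unfold packStep at hv
    split_ifs at hv
    · simp only [List.mem_cons] at hv
      rcases hv with rfl | rfl | rfl | rfl | hv
      · exact h1
      · exact h2
      · exact h3
      · exact h4
      · exact hS v hv
    · exact hS v hv

theorem t_G2 : S_G2 := by
  intro adj n
  constructor
  · apply fold_bound adj n (quads n)
    · rintro ⟨a, b, c, d⟩ ht
      exact (mem_quads n a b c d).mp ht
    · intro v hv; simp at hv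
  · intro a b c d ha hb hc hd h1 h2 h3 h4
    exact fold_max adj (quads n) [] (a, b, c, d) ((mem_quads n a b c d).mpr ⟨ha, hb, hc, hd⟩)
      h1 h2 h3 h4

end Pool.Agent.J4H23.PF
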