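import Pool.Agent.J4H23.PF.C

/-!
Job G3 of project PF: the greedy packing of a yes-instance is small.
-/

namespace Pool.Agent.J4H23.PF

open Pool.Agent.J4H62.PF Pool.Agent.H603R2

theorem untouched {V : Type*} [DecidableEq V] (F : List (V × V)) (a : V)
    (h : ∀ e ∈ F, e.1 ≠ a ∧ e.2 ≠ a) : coll F a = a ∧ ∀ b, coll F b = a → b = a := by
  induction F using List.reverseRecOn with
  | nil => exact ⟨rfl, fun b hb => hb⟩
  | append_singleton F e ih =>
    obtain ⟨h1, h2⟩ := ih fun e' he' => h e' (List.mem_append_left _ he')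
    have he := h e (by simp)
    constructor
    · rw [coll_snoc, h1, if_neg]
      intro h3
      exact he.2 (h2 e.2 h3.symm)
    · intro b hb
      rw [coll_snoc] at hb
      split_ifs at hb with h3
      · exact absurd (h2 e.1 hb) he.1
      · exact h2 b hb

theorem qadj_untouched {V : Type*} [DecidableEq V] (G : SimpleGraph V) (F : List (V × V)) (a b : V)
    (ha : ∀ e ∈ F, e.1 ≠ a ∧ e.2 ≠ a) (hb : ∀ e ∈ F, e.1 ≠ b ∧ e.2 ≠ b) :
    qadj G.Adj (coll F) a b ↔ G.Adj a b := by
  obtain ⟨a1, a2⟩ := untouched F a ha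
  obtain ⟨b1, b2⟩ := untouched F b hb
  unfold qadj
  rw [a1, b1]
  constructor
  · rintro ⟨-, a', b', h1, h2, h3⟩
    rw [← a2 a' h1, ← b2 b' h2]
    exact h3
  · intro h
    exact ⟨h.ne, a, b, a1, b1, h⟩

theorem fold_le (adj : ℕ → ℕ → Bool) (T : Finset ℕ)
    (hT : ∀ a b c d, isP4 adj a b c d = true → a ∈ T ∨ b ∈ T ∨ c ∈ T ∨ d ∈ T)
    (l : List (ℕ × ℕ × ℕ × ℕ)) : ∀ S : List ℕ, S.length ≤ 4 * (T.filter fun v => v ∈ S).card →
      (l.foldl (packStep adj) S).length ≤
        4 * (T.filter fun v => v ∈ l.foldl (packStep adj) S).card := by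
  induction l with
  | nil => intro S hS; exact hS
  | cons t l ih =>
    intro S hS
    rw [List.foldl_cons]
    apply ih
    unfold packStep
    split_ifs with h
    · obtain ⟨h1, h2, h3, h4, h5⟩ := h
      have hex : ∃ w ∈ T, w ∉ S ∧ (w = t.1 ∨ w = t.2.1 ∨ w = t.2.2.1 ∨ w = t.2.2.2) := by
        rcases hT _ _ _ _ h1 with h | h | h | h
        · exact ⟨_, h, h2, Or.inl rfl⟩
        · exact ⟨_, h, h3, Or.inr (Or.inl rfl)⟩
        · exact ⟨_, h, h4, Or.inr (Or.inr (Or.inl rfl))⟩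
        · exact ⟨_, h, h5, Or.inr (Or.inr (Or.inr rfl))⟩
      obtain ⟨w, hwT, hwS, hw⟩ := hex
      have hsub : insert w (T.filter fun v => v ∈ S) ⊆
          T.filter fun v => v ∈ t.1 :: t.2.1 :: t.2.2.1 :: t.2.2.2 :: S := by
        intro v hv
        rw [Finset.mem_insert, Finset.mem_filter] at hv
        rw [Finset.mem_filter]
        rcases hv with rfl | ⟨hv1, hv2⟩
        · refine ⟨hwT, ?_⟩
          simp only [List.mem_cons]
          tauto
        · refine ⟨hv1, ?_⟩
          simp only [List.mem_cons]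
          tauto
      have hcard := Finset.card_le_card hsub
      rw [Finset.card_insert_of_notMem (by
        rw [Finset.mem_filter]; exact fun h => hwS h.2)] at hcard
      simp only [List.length_cons]
      omega
    · exact hS

theorem t_G3 (hG1 : S_G1) : S_G3 := by
  intro x h
  obtain ⟨F, hk, hF, hfree⟩ := (t_C x.n x.G x.k).mp h
  set T : Finset ℕ := (F.flatMap fun e => [(e.1 : ℕ), (e.2 : ℕ)]).toFinset with hTdef
  have hTc : T.card ≤ 2 * x.k := by
    refine (List.toFinset_card_le _).trans ?_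
    have : ∀ L : List (Fin x.n × Fin x.n),
        (L.flatMap fun e => [(e.1 : ℕ), (e.2 : ℕ)]).length = 2 * L.length := by
      intro L
      induction L with
      | nil => rfl
      | cons e L ih =>
        rw [List.flatMap_cons, List.length_append, ih]
        simp only [List.length_cons, List.length_nil]
        ring
    rw [this]
    omega
  have hun : ∀ a : Fin x.n, (a : ℕ) ∉ T → ∀ e ∈ F, e.1 ≠ a ∧ e.2 ≠ a := by
    intro a ha e he
    constructor
    · rintro rfl
      apply ha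
      rw [hTdef, List.mem_toFinset, List.mem_flatMap]
      exact ⟨e, he, by simp⟩
    · rintro rfl
      apply ha
      rw [hTdef, List.mem_toFinset, List.mem_flatMap]
      exact ⟨e, he, by simp⟩
  have hT : ∀ a b c d, isP4 (adjM x.n (adjBits x.G)) a b c d = true →
      a ∈ T ∨ b ∈ T ∨ c ∈ T ∨ d ∈ T := by
    intro a b c d hp
    by_contra hcon
    push Not at hcon
    obtain ⟨ha, hb, hc, hd⟩ := hcon
    unfold isP4 at hp
    simp only [Bool.and_eq_true, Bool.not_eq_true'] at hp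
    obtain ⟨⟨hab, hbc, hcd⟩, hac, hbd, had⟩ := hp
    obtain ⟨ha', hb', hab⟩ := (hG1 x.n x.G a b).mp hab
    obtain ⟨_, hc', hbc⟩ := (hG1 x.n x.G b c).mp hbc
    obtain ⟨_, hd', hcd⟩ := (hG1 x.n x.G c d).mp hcd
    have hn : ∀ (u v : ℕ) (hu : u < x.n) (hv : v < x.n), adjM x.n (adjBits x.G) u v = false →
        ¬ x.G.Adj ⟨u, hu⟩ ⟨v, hv⟩ := by
      intro u v hu hv h1 h2
      have h3 := (hG1 x.n x.G u v).mpr ⟨hu, hv, h2⟩
      rw [h1] at h3
      exact absurd h3 (by decide)
    have ua := hun ⟨a, ha'⟩ ha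
    have ub := hun ⟨b, hb'⟩ hb
    have uc := hun ⟨c, hc'⟩ hc
    have ud := hun ⟨d, hd'⟩ hd
    apply hfree ⟨a, ha'⟩ ⟨b, hb'⟩ ⟨c, hc'⟩ ⟨d, hd'⟩
    unfold pat
    rw [qadj_untouched _ _ _ _ ua ub, qadj_untouched _ _ _ _ ub uc,
      qadj_untouched _ _ _ _ uc ud, qadj_untouched _ _ _ _ ua uc,
      qadj_untouched _ _ _ _ ub ud, qadj_untouched _ _ _ _ ua ud]
    exact ⟨hab, hbc, hcd, hn _ _ _ _ hac, hn _ _ _ _ hbd, hn _ _ _ _ had⟩
  have h1 := fold_le (adjM x.n (adjBits x.G)) T hT (quads x.n) [] (by simp)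
  unfold pack
  have h2 : (T.filter fun v => v ∈ (quads x.n).foldl (packStep (adjM x.n (adjBits x.G))) []).card
      ≤ T.card := Finset.card_filter_le _ _
  omega

end Pool.Agent.J4H23.PF
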