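import Pool.Agent.J4H23.PF.P3

/-!
Jobs P1b and P1c of project PF: adjacency and the type of a single vertex are computable in
polynomial time.
-/

namespace Pool.Agent.J4H23.PF

open Pool.Agent.J4H62.PF Pool.Agent.NPC

variable {X : Type} [TEnc X]

theorem t_P1b : S_P1b :=
  poly_adjM (Poly.fst (Poly.fst Poly.id)) (Poly.snd (Poly.fst Poly.id))
    (Poly.fst (Poly.snd Poly.id)) (Poly.snd (Poly.snd Poly.id))

/-- the filter of `base` -/
theorem poly_base {E : X → Env} {n : X → ℕ} {M : X → List Bool} {S : X → List ℕ} {v : X → ℕ}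
    (hE : Poly E) (hn : Poly n) (hM : Poly M) (hS : Poly S) (hv : Poly v) :
    Poly (fun x => base (E x) (adjM (n x) (M x)) (S x) (v x)) := by
  unfold base
  have hQ : Poly (fun x => (E x).2.1) := Poly.fst (Poly.snd hE)
  have hU : Poly (fun x => (E x).2.2.1) := Poly.fst (Poly.snd (Poly.snd hE))
  have hz : ∀ {Y : Type} [TEnc Y] {g : Y → X} {i : Y → ℕ}, Poly g → Poly i →
      Poly (fun y => ztup (S (g y)) (v (g y)) (i y)) := by
    intro Y _ g i hg hi
    unfold ztup
    exact Poly.getD (hS.comp hg) hi (hv.comp hg)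
  have hev : Poly (fun y : X × Qu => J4H62.PF.ev (adjM (n y.1) (M y.1)) (ztup (S y.1) (v y.1)) y.2) := by
    have c : Poly (fun y : X × Qu => y.1) := Poly.fst Poly.id
    have q1 : Poly (fun y : X × Qu => y.2.1) := Poly.fst (Poly.snd Poly.id)
    have q2 : Poly (fun y : X × Qu => y.2.2.1) := Poly.fst (Poly.snd (Poly.snd Poly.id))
    have q3 : Poly (fun y : X × Qu => y.2.2.2) := Poly.snd (Poly.snd (Poly.snd Poly.id))
    refine (Poly.cond q1 (poly_adjM (hn.comp c) (hM.comp c) (hz c q2) (hz c q3))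
      (Poly.decide_eq (hz c q2) (hz c q3))).congr fun y => ?_
    unfold J4H62.PF.ev
    cases h : y.2.1 with
    | false => rw [cond_false, if_neg (by simp)]
    | true => rw [cond_true, if_pos rfl]
  have hatp : Poly (fun x => atp (adjM (n x) (M x)) (E x).2.1 (ztup (S x) (v x))) := by
    unfold atp
    exact NPC.Poly.map (l := fun x => (E x).2.1)
      (F := fun x q => J4H62.PF.ev (adjM (n x) (M x)) (ztup (S x) (v x)) q) hQ hev
  have hf : Poly (fun x => (E x).2.2.1.filter fun α =>
      decide (atp (adjM (n x) (M x)) (E x).2.1 (ztup (S x) (v x)) = α)) := by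
    refine Poly.filter (l := fun x => (E x).2.2.1) (p := fun x α =>
      decide (atp (adjM (n x) (M x)) (E x).2.1 (ztup (S x) (v x)) = α)) hU ?_
    exact Poly.decide_eq (hatp.comp (Poly.fst Poly.id)) (Poly.snd Poly.id)
  exact Poly.cons hf (NPC.Poly.const [])

theorem t_P1c : S_P1c := by
  unfold S_P1c
  have c : Poly (fun x : Env × (ℕ × List Bool) × List ℕ × ℕ => x.1) := Poly.fst Poly.id
  exact poly_base c (Poly.fst (Poly.fst (Poly.snd Poly.id)))
    (Poly.snd (Poly.fst (Poly.snd Poly.id))) (Poly.fst (Poly.snd (Poly.snd Poly.id)))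
    (Poly.snd (Poly.snd (Poly.snd Poly.id)))

end Pool.Agent.J4H23.PF
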