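import Pool.Agent.J4H62.PF.Jobs

/-!
Job P2 of project PF: `psi` is computable in polynomial time.
-/

namespace Pool.Agent.J4H23.PF

open Pool.Agent.J4H62.PF Pool.Agent.NPC

variable {X : Type} [TEnc X]

theorem poly_look {Q : X → List Qu} {b : X → List Bool} {q : X → Qu} (hQ : Poly Q) (hb : Poly b)
    (hq : Poly q) : Poly (fun a => look (Q a) (b a) (q a)) :=
  Poly.any (l := fun a => (Q a).zip (b a)) (p := fun a t => decide (t.1 = q a) && t.2)
    (Poly.zip hQ hb) (Poly.and (Poly.decide_eq (Poly.fst (Poly.snd Poly.id))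
      (hq.comp (Poly.fst Poly.id))) (Poly.snd (Poly.snd Poly.id)))

theorem poly_qu {c : Bool} {i j : X → ℕ} (hi : Poly i) (hj : Poly j) :
    Poly (fun a => ((c, i a, j a) : Qu)) :=
  Poly.pair (NPC.Poly.const c) (Poly.pair hi hj)

theorem poly_qadjI {Q : X → List Qu} {b : X → List Bool} {lab R : X → List ℕ} {la lb : X → ℕ}
    (hQ : Poly Q) (hb : Poly b) (hlab : Poly lab) (hR : Poly R) (hla : Poly la) (hlb : Poly lb) :
    Poly (fun a => qadjI (Q a) (b a) (lab a) (R a) (la a) (lb a)) := by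
  unfold qadjI
  refine Poly.and (Poly.not (poly_look hQ hb (poly_qu hla hlb))) ?_
  refine Poly.any (l := R) (p := fun a a' => (R a).any fun b' =>
    look (Q a) (b a) (false, (lab a).getD a' 0, la a) &&
      (look (Q a) (b a) (false, (lab a).getD b' 0, lb a) && look (Q a) (b a) (true, a', b'))) hR ?_
  refine Poly.any (l := fun x : X × ℕ => R x.1) (p := fun x b' =>
    look (Q x.1) (b x.1) (false, (lab x.1).getD x.2 0, la x.1) &&
      (look (Q x.1) (b x.1) (false, (lab x.1).getD b' 0, lb x.1) &&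
        look (Q x.1) (b x.1) (true, x.2, b'))) (hR.comp (Poly.fst Poly.id)) ?_
  have c : Poly (fun y : (X × ℕ) × ℕ => y.1.1) := Poly.fst (Poly.fst Poly.id)
  have h1 : Poly (fun y : (X × ℕ) × ℕ => y.1.2) := Poly.snd (Poly.fst Poly.id)
  have h2 : Poly (fun y : (X × ℕ) × ℕ => y.2) := Poly.snd Poly.id
  refine Poly.and (poly_look (hQ.comp c) (hb.comp c)
    (poly_qu (Poly.getD (hlab.comp c) h1 (NPC.Poly.const 0)) (hla.comp c))) ?_
  refine Poly.and (poly_look (hQ.comp c) (hb.comp c)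
    (poly_qu (Poly.getD (hlab.comp c) h2 (NPC.Poly.const 0)) (hlb.comp c))) ?_
  exact poly_look (hQ.comp c) (hb.comp c) (poly_qu h1 h2)

/-- one step of `labs` -/
def labStep (Q : List Qu) (α : List Bool) (lab : List ℕ) (e : ℕ × ℕ) : List ℕ :=
  lab.map fun l => bif look Q α (false, l, lab.getD e.2 0) then lab.getD e.1 0 else l

theorem labs_eq (Q : List Qu) (α : List Bool) (R : List ℕ) (F : List (ℕ × ℕ)) :
    labs Q α R F = F.foldl (labStep Q α) R := rfl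

theorem lab_inv (Q : List Qu) (α : List Bool) (R : List ℕ) (F : List (ℕ × ℕ)) :
    ∀ lab : List ℕ, lab.length = R.length → (∀ l ∈ lab, l ∈ R ∨ l = 0) →
      (F.foldl (labStep Q α) lab).length = R.length ∧
        ∀ l ∈ F.foldl (labStep Q α) lab, l ∈ R ∨ l = 0 := by
  induction F with
  | nil => intro lab h1 h2; exact ⟨h1, h2⟩
  | cons e F ih =>
    intro lab h1 h2
    rw [List.foldl_cons]
    apply ih
    · unfold labStep; rw [List.length_map, h1]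
    · intro l hl
      unfold labStep at hl
      rw [List.mem_map] at hl
      obtain ⟨l', hl', h⟩ := hl
      cases hb : look Q α (false, l', lab.getD e.2 0) with
      | false =>
        rw [hb, cond_false] at h
        subst h
        exact h2 _ hl'
      | true =>
        rw [hb, cond_true] at h
        subst h
        by_cases hlt : e.1 < lab.length
        · rw [List.getD_eq_getElem _ _ hlt]
          exact h2 _ (List.getElem_mem hlt)
        · right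
          rw [List.getD_eq_default _ _ (by omega)]

theorem sz_labs (Q : List Qu) (α : List Bool) (R : List ℕ) (F : List (ℕ × ℕ)) :
    sz (F.foldl (labStep Q α) R) ≤ sz R * (sz R + 2) + 1 := by
  obtain ⟨h1, h2⟩ := lab_inv Q α R F R rfl (fun l hl => Or.inl hl)
  have h3 := sz_le_length_mul (F.foldl (labStep Q α) R) (sz R + 1) (by
    intro l hl
    rcases h2 l hl with h | h
    · have := sz_le_of_mem h
      omega
    · subst h
      have : sz (0 : ℕ) = 1 := rfl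
      omega)
  rw [h1] at h3
  have h4 : R.length ≤ sz R := (length_lt_sz R).le
  refine h3.trans ?_
  have : R.length * (sz R + 1 + 1) ≤ sz R * (sz R + 2) := Nat.mul_le_mul h4 (by omega)
  omega

theorem poly_labs {Q : X → List Qu} {b : X → List Bool} {R : X → List ℕ} {F : X → List (ℕ × ℕ)}
    (hQ : Poly Q) (hb : Poly b) (hR : Poly R) (hF : Poly F) :
    Poly (fun a => labs (Q a) (b a) (R a) (F a)) := by
  obtain ⟨r, hr⟩ := hR.sz_le
  have hstep : Poly (fun p : X × List ℕ × (ℕ × ℕ) => labStep (Q p.1) (b p.1) p.2.1 p.2.2) := by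
    unfold labStep
    have c : Poly (fun y : (X × List ℕ × (ℕ × ℕ)) × ℕ => y.1.1) := Poly.fst (Poly.fst Poly.id)
    have c1 : Poly (fun y : (X × List ℕ × (ℕ × ℕ)) × ℕ => y.1.2.1) :=
      Poly.fst (Poly.snd (Poly.fst Poly.id))
    have c2 : Poly (fun y : (X × List ℕ × (ℕ × ℕ)) × ℕ => y.1.2.2.1) :=
      Poly.fst (Poly.snd (Poly.snd (Poly.fst Poly.id)))
    have c3 : Poly (fun y : (X × List ℕ × (ℕ × ℕ)) × ℕ => y.1.2.2.2) :=
      Poly.snd (Poly.snd (Poly.snd (Poly.fst Poly.id)))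
    have c4 : Poly (fun y : (X × List ℕ × (ℕ × ℕ)) × ℕ => y.2) := Poly.snd Poly.id
    refine NPC.Poly.map (l := fun p : X × List ℕ × (ℕ × ℕ) => p.2.1) (F := fun p l =>
      bif look (Q p.1) (b p.1) (false, l, p.2.1.getD p.2.2.2 0) then p.2.1.getD p.2.2.1 0 else l)
      (Poly.fst (Poly.snd Poly.id)) ?_
    exact Poly.cond (poly_look (hQ.comp c) (hb.comp c)
      (poly_qu c4 (Poly.getD c1 c3 (NPC.Poly.const 0)))) (Poly.getD c1 c2 (NPC.Poly.const 0)) c4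
  refine (Poly.foldl (l := F) (s := R) (F := fun a s e => labStep (Q a) (b a) s e) hF hR hstep
    (r * (r + Polynomial.C 2) + Polynomial.C 1) ?_).congr fun a => rfl
  intro a k hk
  refine (sz_labs (Q a) (b a) (R a) ((F a).take k)).trans ?_
  have h1 := hr a
  simp only [Polynomial.eval_add, Polynomial.eval_mul, Polynomial.eval_C]
  have : sz (R a) * (sz (R a) + 2) ≤ r.eval (sz a) * (r.eval (sz a) + 2) :=
    Nat.mul_le_mul h1 (by omega)
  omega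

theorem t_P2 : S_P2 := by
  unfold S_P2 psi
  let Y := List Qu × List ℕ × List (ℕ × ℕ) × List Bool
  have gQ : Poly (fun x : Y => x.1) := Poly.fst Poly.id
  have gR : Poly (fun x : Y => x.2.1) := Poly.fst (Poly.snd Poly.id)
  have gF : Poly (fun x : Y => x.2.2.1) := Poly.fst (Poly.snd (Poly.snd Poly.id))
  have gb : Poly (fun x : Y => x.2.2.2) := Poly.snd (Poly.snd (Poly.snd Poly.id))
  have gL : Poly (fun x : Y => labs x.1 x.2.2.2 x.2.1 x.2.2.1) := poly_labs gQ gb gR gF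
  refine Poly.and ?_ ?_
  · refine Poly.all (l := fun x : Y => x.2.2.1) (p := fun x e =>
      look x.1 x.2.2.2 (true, e.1, e.2) || look x.1 x.2.2.2 (false, e.1, e.2)) gF ?_
    have c : Poly (fun y : Y × (ℕ × ℕ) => y.1) := Poly.fst Poly.id
    have c1 : Poly (fun y : Y × (ℕ × ℕ) => y.2.1) := Poly.fst (Poly.snd Poly.id)
    have c2 : Poly (fun y : Y × (ℕ × ℕ) => y.2.2) := Poly.snd (Poly.snd Poly.id)
    exact Poly.or (poly_look (gQ.comp c) (gb.comp c) (poly_qu c1 c2))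
      (poly_look (gQ.comp c) (gb.comp c) (poly_qu c1 c2))
  · refine Poly.all (l := fun x : Y => labs x.1 x.2.2.2 x.2.1 x.2.2.1) (p := fun x a =>
      (labs x.1 x.2.2.2 x.2.1 x.2.2.1).all fun b => (labs x.1 x.2.2.2 x.2.1 x.2.2.1).all fun c =>
      (labs x.1 x.2.2.2 x.2.1 x.2.2.1).all fun d =>
        !((qadjI x.1 x.2.2.2 (labs x.1 x.2.2.2 x.2.1 x.2.2.1) x.2.1 a b &&
          (qadjI x.1 x.2.2.2 (labs x.1 x.2.2.2 x.2.1 x.2.2.1) x.2.1 b c &&
          qadjI x.1 x.2.2.2 (labs x.1 x.2.2.2 x.2.1 x.2.2.1) x.2.1 c d)) &&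
          (!(qadjI x.1 x.2.2.2 (labs x.1 x.2.2.2 x.2.1 x.2.2.1) x.2.1 a c) &&
          (!(qadjI x.1 x.2.2.2 (labs x.1 x.2.2.2 x.2.1 x.2.2.1) x.2.1 b d) &&
            !(qadjI x.1 x.2.2.2 (labs x.1 x.2.2.2 x.2.1 x.2.2.1) x.2.1 a d))))) gL ?_
    refine Poly.all (l := fun y : Y × ℕ => labs y.1.1 y.1.2.2.2 y.1.2.1 y.1.2.2.1) (p := fun y b =>
      (labs y.1.1 y.1.2.2.2 y.1.2.1 y.1.2.2.1).all fun c =>
      (labs y.1.1 y.1.2.2.2 y.1.2.1 y.1.2.2.1).all fun d =>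
        !((qadjI y.1.1 y.1.2.2.2 (labs y.1.1 y.1.2.2.2 y.1.2.1 y.1.2.2.1) y.1.2.1 y.2 b &&
          (qadjI y.1.1 y.1.2.2.2 (labs y.1.1 y.1.2.2.2 y.1.2.1 y.1.2.2.1) y.1.2.1 b c &&
          qadjI y.1.1 y.1.2.2.2 (labs y.1.1 y.1.2.2.2 y.1.2.1 y.1.2.2.1) y.1.2.1 c d)) &&
          (!(qadjI y.1.1 y.1.2.2.2 (labs y.1.1 y.1.2.2.2 y.1.2.1 y.1.2.2.1) y.1.2.1 y.2 c) &&
          (!(qadjI y.1.1 y.1.2.2.2 (labs y.1.1 y.1.2.2.2 y.1.2.1 y.1.2.2.1) y.1.2.1 b d) &&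
            !(qadjI y.1.1 y.1.2.2.2 (labs y.1.1 y.1.2.2.2 y.1.2.1 y.1.2.2.1) y.1.2.1 y.2 d)))))
      (gL.comp (Poly.fst Poly.id)) ?_
    refine Poly.all (l := fun y : (Y × ℕ) × ℕ =>
      labs y.1.1.1 y.1.1.2.2.2 y.1.1.2.1 y.1.1.2.2.1) (p := fun y c =>
      (labs y.1.1.1 y.1.1.2.2.2 y.1.1.2.1 y.1.1.2.2.1).all fun d =>
        !((qadjI y.1.1.1 y.1.1.2.2.2 (labs y.1.1.1 y.1.1.2.2.2 y.1.1.2.1 y.1.1.2.2.1) y.1.1.2.1
              y.1.2 y.2 &&
          (qadjI y.1.1.1 y.1.1.2.2.2 (labs y.1.1.1 y.1.1.2.2.2 y.1.1.2.1 y.1.1.2.2.1) y.1.1.2.1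
              y.2 c &&
          qadjI y.1.1.1 y.1.1.2.2.2 (labs y.1.1.1 y.1.1.2.2.2 y.1.1.2.1 y.1.1.2.2.1) y.1.1.2.1
              c d)) &&
          (!(qadjI y.1.1.1 y.1.1.2.2.2 (labs y.1.1.1 y.1.1.2.2.2 y.1.1.2.1 y.1.1.2.2.1) y.1.1.2.1
              y.1.2 c) &&
          (!(qadjI y.1.1.1 y.1.1.2.2.2 (labs y.1.1.1 y.1.1.2.2.2 y.1.1.2.1 y.1.1.2.2.1) y.1.1.2.1
              y.2 d) &&
            !(qadjI y.1.1.1 y.1.1.2.2.2 (labs y.1.1.1 y.1.1.2.2.2 y.1.1.2.1 y.1.1.2.2.1) y.1.1.2.1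
              y.1.2 d)))))
      (gL.comp (Poly.fst (Poly.fst Poly.id))) ?_
    refine Poly.all (l := fun y : ((Y × ℕ) × ℕ) × ℕ =>
      labs y.1.1.1.1 y.1.1.1.2.2.2 y.1.1.1.2.1 y.1.1.1.2.2.1) (p := fun y d =>
        !((qadjI y.1.1.1.1 y.1.1.1.2.2.2 (labs y.1.1.1.1 y.1.1.1.2.2.2 y.1.1.1.2.1 y.1.1.1.2.2.1)
              y.1.1.1.2.1 y.1.1.2 y.1.2 &&
          (qadjI y.1.1.1.1 y.1.1.1.2.2.2 (labs y.1.1.1.1 y.1.1.1.2.2.2 y.1.1.1.2.1 y.1.1.1.2.2.1)
              y.1.1.1.2.1 y.1.2 y.2 &&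
          qadjI y.1.1.1.1 y.1.1.1.2.2.2 (labs y.1.1.1.1 y.1.1.1.2.2.2 y.1.1.1.2.1 y.1.1.1.2.2.1)
              y.1.1.1.2.1 y.2 d)) &&
          (!(qadjI y.1.1.1.1 y.1.1.1.2.2.2 (labs y.1.1.1.1 y.1.1.1.2.2.2 y.1.1.1.2.1 y.1.1.1.2.2.1)
              y.1.1.1.2.1 y.1.1.2 y.2) &&
          (!(qadjI y.1.1.1.1 y.1.1.1.2.2.2 (labs y.1.1.1.1 y.1.1.1.2.2.2 y.1.1.1.2.1 y.1.1.1.2.2.1)
              y.1.1.1.2.1 y.1.2 d) &&
            !(qadjI y.1.1.1.1 y.1.1.1.2.2.2 (labs y.1.1.1.1 y.1.1.1.2.2.2 y.1.1.1.2.1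
              y.1.1.1.2.2.1) y.1.1.1.2.1 y.1.1.2 d)))))
      (gL.comp (Poly.fst (Poly.fst (Poly.fst Poly.id)))) ?_
    let Z := (((Y × ℕ) × ℕ) × ℕ) × ℕ
    have c : Poly (fun y : Z => y.1.1.1.1) := Poly.fst (Poly.fst (Poly.fst (Poly.fst Poly.id)))
    have ha : Poly (fun y : Z => y.1.1.1.2) := Poly.snd (Poly.fst (Poly.fst (Poly.fst Poly.id)))
    have hb : Poly (fun y : Z => y.1.1.2) := Poly.snd (Poly.fst (Poly.fst Poly.id))
    have hc : Poly (fun y : Z => y.1.2) := Poly.snd (Poly.fst Poly.id)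
    have hd : Poly (fun y : Z => y.2) := Poly.snd Poly.id
    have q : ∀ {u v : Z → ℕ}, Poly u → Poly v → Poly (fun y : Z =>
        qadjI y.1.1.1.1.1 y.1.1.1.1.2.2.2
          (labs y.1.1.1.1.1 y.1.1.1.1.2.2.2 y.1.1.1.1.2.1 y.1.1.1.1.2.2.1)
          y.1.1.1.1.2.1 (u y) (v y)) := fun hu hv =>
      poly_qadjI (gQ.comp c) (gb.comp c) (gL.comp c) (gR.comp c) hu hv
    exact Poly.not (Poly.and (Poly.and (q ha hb) (Poly.and (q hb hc) (q hc hd)))
      (Poly.and (Poly.not (q ha hc)) (Poly.and (Poly.not (q hb hd)) (Poly.not (q ha hd)))))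

end Pool.Agent.J4H23.PF
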