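import Pool.Agent.J4H62.PF.Jobs

/-!
Job P3 of project PF: the greedy packing is computable in polynomial time (and P1b).
-/

namespace Pool.Agent.J4H23.PF

open Pool.Agent.J4H62.PF Pool.Agent.NPC

variable {X : Type} [TEnc X]

theorem poly_adjM {n : X → ℕ} {M : X → List Bool} {u v : X → ℕ} (hn : Poly n) (hM : Poly M)
    (hu : Poly u) (hv : Poly v) : Poly (fun x => adjM (n x) (M x) (u x) (v x)) := by
  unfold adjM
  exact Poly.and (Poly.and (Poly.decide_lt hu hn) (Poly.decide_lt hv hn))
    (Poly.getD hM (NPC.Poly.add (NPC.Poly.mul hu hn) hv) (NPC.Poly.const false))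

theorem poly_isP4 {n : X → ℕ} {M : X → List Bool} {a b c d : X → ℕ} (hn : Poly n) (hM : Poly M)
    (ha : Poly a) (hb : Poly b) (hc : Poly c) (hd : Poly d) :
    Poly (fun x => isP4 (adjM (n x) (M x)) (a x) (b x) (c x) (d x)) := by
  unfold isP4
  exact Poly.and (Poly.and (poly_adjM hn hM ha hb) (Poly.and (poly_adjM hn hM hb hc)
    (poly_adjM hn hM hc hd))) (Poly.and (Poly.not (poly_adjM hn hM ha hc))
    (Poly.and (Poly.not (poly_adjM hn hM hb hd)) (Poly.not (poly_adjM hn hM ha hd))))

theorem poly_quads {l : X → List Unit} (hl : Poly l) : Poly (fun x => quads (l x).length) := by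
  unfold quads
  have hr : Poly (fun x => List.range (l x).length) := Poly.range_length hl
  refine Poly.flatMap (l := fun x => List.range (l x).length) (F := fun x a =>
    (List.range (l x).length).flatMap fun b => (List.range (l x).length).flatMap fun c =>
      (List.range (l x).length).map fun d => (a, b, c, d)) hr ?_
  refine Poly.flatMap (l := fun y : X × ℕ => List.range (l y.1).length) (F := fun y b =>
    (List.range (l y.1).length).flatMap fun c =>
      (List.range (l y.1).length).map fun d => (y.2, b, c, d)) (hr.comp (Poly.fst Poly.id)) ?_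
  refine Poly.flatMap (l := fun y : (X × ℕ) × ℕ => List.range (l y.1.1).length) (F := fun y c =>
      (List.range (l y.1.1).length).map fun d => (y.1.2, y.2, c, d))
      (hr.comp (Poly.fst (Poly.fst Poly.id))) ?_
  refine NPC.Poly.map (l := fun y : ((X × ℕ) × ℕ) × ℕ => List.range (l y.1.1.1).length)
    (F := fun y d => (y.1.1.2, y.1.2, y.2, d)) (hr.comp (Poly.fst (Poly.fst (Poly.fst Poly.id)))) ?_
  exact Poly.pair (Poly.snd (Poly.fst (Poly.fst (Poly.fst Poly.id))))
    (Poly.pair (Poly.snd (Poly.fst (Poly.fst Poly.id))) (Poly.pair (Poly.snd (Poly.fst Poly.id))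
      (Poly.snd Poly.id)))

/-- `packStep` with Boolean conditions -/
def packB (adj : ℕ → ℕ → Bool) (S : List ℕ) (t : ℕ × ℕ × ℕ × ℕ) : List ℕ :=
  bif isP4 adj t.1 t.2.1 t.2.2.1 t.2.2.2 && (!decide (t.1 ∈ S) && (!decide (t.2.1 ∈ S) &&
      (!decide (t.2.2.1 ∈ S) && !decide (t.2.2.2 ∈ S)))) then
    t.1 :: t.2.1 :: t.2.2.1 :: t.2.2.2 :: S else S

theorem packB_eq (adj : ℕ → ℕ → Bool) (S : List ℕ) (t : ℕ × ℕ × ℕ × ℕ) :
    packB adj S t = packStep adj S t := by
  unfold packB packStep
  by_cases h : isP4 adj t.1 t.2.1 t.2.2.1 t.2.2.2 = true ∧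
      (t.1 ∉ S ∧ t.2.1 ∉ S ∧ t.2.2.1 ∉ S ∧ t.2.2.2 ∉ S)
  · rw [if_pos h]
    obtain ⟨h1, h2, h3, h4, h5⟩ := h
    simp [h1, h2, h3, h4, h5]
  · rw [if_neg h]
    have : (isP4 adj t.1 t.2.1 t.2.2.1 t.2.2.2 && (!decide (t.1 ∈ S) && (!decide (t.2.1 ∈ S) &&
      (!decide (t.2.2.1 ∈ S) && !decide (t.2.2.2 ∈ S))))) = false := by
      rw [Bool.eq_false_iff]
      intro h'
      apply h
      simpa only [Bool.and_eq_true, Bool.not_eq_true', decide_eq_false_iff_not] using h'
    rw [this, cond_false]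

theorem sz_fold (adj : ℕ → ℕ → Bool) (l : List (ℕ × ℕ × ℕ × ℕ)) :
    ∀ S : List ℕ, sz (l.foldl (packB adj) S) ≤ sz S + sz l := by
  induction l with
  | nil => intro S; rw [List.foldl_nil]; omega
  | cons t l ih =>
    intro S
    rw [List.foldl_cons]
    refine (ih _).trans ?_
    have h1 : sz (packB adj S t) ≤ sz S + sz t + 1 := by
      unfold packB
      cases (isP4 adj t.1 t.2.1 t.2.2.1 t.2.2.2 && (!decide (t.1 ∈ S) && (!decide (t.2.1 ∈ S) &&
        (!decide (t.2.2.1 ∈ S) && !decide (t.2.2.2 ∈ S))))) with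
      | false => rw [cond_false]; omega
      | true =>
        rw [cond_true]
        have e : sz t = sz t.1 + (sz t.2.1 + (sz t.2.2.1 + sz t.2.2.2 + 1) + 1) + 1 := by
          obtain ⟨a, b, c, d⟩ := t
          simp only [sz_pair]
        simp only [sz_list_cons]
        omega
    rw [sz_list_cons]
    omega

theorem t_P3 : S_P3 := by
  unfold S_P3
  let Y := List Unit × List Bool
  have gl : Poly (fun x : Y => x.1) := Poly.fst Poly.id
  have gM : Poly (fun x : Y => x.2) := Poly.snd Poly.id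
  have gn : Poly (fun x : Y => x.1.length) := Poly.length gl
  have gq : Poly (fun x : Y => quads x.1.length) := poly_quads gl
  obtain ⟨r, hr⟩ := gq.sz_le
  have hstep : Poly (fun p : Y × List ℕ × (ℕ × ℕ × ℕ × ℕ) =>
      packB (adjM p.1.1.length p.1.2) p.2.1 p.2.2) := by
    unfold packB
    let Z := Y × List ℕ × (ℕ × ℕ × ℕ × ℕ)
    have c : Poly (fun y : Z => y.1) := Poly.fst Poly.id
    have cS : Poly (fun y : Z => y.2.1) := Poly.fst (Poly.snd Poly.id)
    have c1 : Poly (fun y : Z => y.2.2.1) := Poly.fst (Poly.snd (Poly.snd Poly.id))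
    have c2 : Poly (fun y : Z => y.2.2.2.1) :=
      Poly.fst (Poly.snd (Poly.snd (Poly.snd Poly.id)))
    have c3 : Poly (fun y : Z => y.2.2.2.2.1) :=
      Poly.fst (Poly.snd (Poly.snd (Poly.snd (Poly.snd Poly.id))))
    have c4 : Poly (fun y : Z => y.2.2.2.2.2) :=
      Poly.snd (Poly.snd (Poly.snd (Poly.snd (Poly.snd Poly.id))))
    refine Poly.cond (Poly.and (poly_isP4 (gn.comp c) (gM.comp c) c1 c2 c3 c4)
      (Poly.and (Poly.not (Poly.decide_mem c1 cS)) (Poly.and (Poly.not (Poly.decide_mem c2 cS))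
      (Poly.and (Poly.not (Poly.decide_mem c3 cS)) (Poly.not (Poly.decide_mem c4 cS)))))) ?_ cS
    exact Poly.cons c1 (Poly.cons c2 (Poly.cons c3 (Poly.cons c4 cS)))
  refine (Poly.foldl (l := fun x : Y => quads x.1.length) (s := fun _ => ([] : List ℕ))
    (F := fun x S t => packB (adjM x.1.length x.2) S t) gq (NPC.Poly.const []) hstep
    (r + Polynomial.C 1) ?_).congr fun x => ?_
  · intro x k hk
    refine (sz_fold _ _ _).trans ?_
    have h1 := hr x
    have h2 := Poly.sz_take_le (quads x.1.length) k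
    have h3 : sz ([] : List ℕ) = 1 := rfl
    simp only [Polynomial.eval_add, Polynomial.eval_C]
    omega
  · unfold pack
    have : (fun S t => packB (adjM x.1.length x.2) S t) = packStep (adjM x.1.length x.2) := by
      funext S t
      exact packB_eq _ _ _
    rw [this]

end Pool.Agent.J4H23.PF
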