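import Pool.Agent.J4H23.PF.G3
import Pool.Agent.J4H23.PF.G1

/-!
Job R of project PF: the semantic form of the problem.
-/

namespace Pool.Agent.J4H23.PF

open Pool.Agent.J4H62.PF Pool.Agent.H603R2

theorem pat_congr {V W : Type*} (R : V → V → Prop) (R' : W → W → Prop) {a b c d : V} {a' b' c' d' : W}
    (hab : R a b ↔ R' a' b') (hbc : R b c ↔ R' b' c') (hcd : R c d ↔ R' c' d')
    (hac : R a c ↔ R' a' c') (hbd : R b d ↔ R' b' d') (had : R a d ↔ R' a' d') :
    pat R a b c d ↔ pat R' a' b' c' d' := by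
  unfold pat
  rw [hab, hbc, hcd, hac, hbd, had]

theorem coll_filter {V : Type*} [DecidableEq V] (F : List (V × V)) :
    coll (F.filter fun e => decide (e.1 ≠ e.2)) = coll F := by
  induction F using List.reverseRecOn with
  | nil => rfl
  | append_singleton F e ih =>
    funext a
    rw [List.filter_append]
    by_cases he : e.1 = e.2
    · have h1 : [e].filter (fun e => decide (e.1 ≠ e.2)) = [] := by simp [he]
      rw [h1, List.append_nil, ih, coll_snoc, he]
      split_ifs with h
      · exact h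
      · rfl
    · have h1 : [e].filter (fun e => decide (e.1 ≠ e.2)) = [e] := by simp [he]
      rw [h1, coll_snoc, coll_snoc, ih]

theorem touched_of_ne {V : Type*} [DecidableEq V] (F : List (V × V)) (u w : V)
    (h : coll F w = coll F u) (hne : w ≠ u) : ∃ e ∈ F, e.1 = w ∨ e.2 = w := by
  by_contra hcon
  push Not at hcon
  obtain ⟨h1, h2⟩ := untouched F w hcon
  exact hne (h2 u (by rw [← h, h1])).symm

/-- the classes are witnessed by entries of the tuple -/
theorem qadjZ_iff (adj : ℕ → ℕ → Bool) (N : ℕ) (z : ℕ → ℕ) (F : List (ℕ × ℕ))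
    (hF : ∀ e ∈ F, e.1 < N ∧ e.2 < N) (a b : ℕ) (ha : a < N) (hb : b < N) :
    qadjZ adj N z (coll (F.map fun e => (z e.1, z e.2))) (z a) (z b) ↔
      qadj (fun u v => adj u v = true) (coll (F.map fun e => (z e.1, z e.2))) (z a) (z b) := by
  unfold qadjZ qadj
  constructor
  · rintro ⟨h, a', _, b', _, h1, h2, h3⟩
    exact ⟨h, z a', z b', h1, h2, h3⟩
  · rintro ⟨h, u, v, h1, h2, h3⟩
    have key : ∀ (c : ℕ), c < N → ∀ w, coll (F.map fun e => (z e.1, z e.2)) w =
        coll (F.map fun e => (z e.1, z e.2)) (z c) → ∃ i < N, z i = w := by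
      intro c hc w hw
      by_cases hwc : w = z c
      · exact ⟨c, hc, hwc.symm⟩
      · obtain ⟨e, he, h⟩ := touched_of_ne _ _ _ hw hwc
        rw [List.mem_map] at he
        obtain ⟨e', he', rfl⟩ := he
        rcases h with h | h
        · exact ⟨e'.1, (hF e' he').1, h⟩
        · exact ⟨e'.2, (hF e' he').2, h⟩
    obtain ⟨i, hi, rfl⟩ := key a ha u h1
    obtain ⟨j, hj, rfl⟩ := key b hb v h2
    exact ⟨h, i, hi, j, hj, h1, h2, h3⟩

theorem qadj_lt (n : ℕ) (R : ℕ → ℕ → Prop) (hR : ∀ u v, R u v → u < n ∧ v < n)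
    (F : List (ℕ × ℕ)) (hF : ∀ e ∈ F, e.1 < n ∧ e.2 < n) (u v : ℕ) (h : qadj R (coll F) u v) :
    u < n ∧ v < n := by
  obtain ⟨-, u', v', h1, h2, h3⟩ := h
  have key : ∀ u u' : ℕ, coll F u' = coll F u → u' < n → u < n := by
    intro u u' h hu'
    by_cases huu : u = u'
    · omega
    · obtain ⟨e, he, h⟩ := touched_of_ne F u' u h.symm huu
      have := hF e he
      rcases h with h | h <;> omega
  exact ⟨key u u' h1 (hR _ _ h3).1, key v v' h2 (hR _ _ h3).2⟩

theorem coll_val {n : ℕ} (F : List (Fin n × Fin n)) (a : Fin n) :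
    coll (F.map fun e => ((e.1 : ℕ), (e.2 : ℕ))) (a : ℕ) = ((coll F a : Fin n) : ℕ) := by
  induction F using List.reverseRecOn generalizing a with
  | nil => rfl
  | append_singleton F e ih =>
    rw [List.map_append, List.map_singleton, coll_snoc, coll_snoc]
    simp only [ih]
    split_ifs with h1 h2 h2
    · rfl
    · exact absurd (Fin.ext h1) h2
    · exact absurd (congrArg Fin.val h2) h1
    · rfl

theorem lift_list {n : ℕ} (F : List (ℕ × ℕ)) (h : ∀ e ∈ F, e.1 < n ∧ e.2 < n) :
    ∃ F₀ : List (Fin n × Fin n), (F₀.map fun e => ((e.1 : ℕ), (e.2 : ℕ))) = F := by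
  induction F with
  | nil => exact ⟨[], rfl⟩
  | cons e F ih =>
    obtain ⟨F₀, hF₀⟩ := ih fun e' he' => h e' (List.mem_cons_of_mem _ he')
    obtain ⟨h1, h2⟩ := h e List.mem_cons_self
    exact ⟨(⟨e.1, h1⟩, ⟨e.2, h2⟩) :: F₀, by rw [List.map_cons, hF₀]⟩

theorem contr_nat (hC : S_C) (x : GraphInst) :
    Contractible (SimpleGraph.pathGraph 4) x.G x.k ↔ ∃ F : List (ℕ × ℕ), F.length ≤ x.k ∧
      (∀ e ∈ F, adjM x.n (adjBits x.G) e.1 e.2 = true) ∧
      ∀ a b c d, ¬ pat (qadj (fun u v => adjM x.n (adjBits x.G) u v = true) (coll F)) a b c d := by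
  rw [hC x.n x.G x.k]
  have hadj : ∀ (u v : Fin x.n), adjM x.n (adjBits x.G) u v = true ↔ x.G.Adj u v := by
    intro u v
    rw [t_G1 x.n x.G u v]
    exact ⟨fun ⟨_, _, h⟩ => h, fun h => ⟨u.2, v.2, h⟩⟩
  have hlt : ∀ u v, adjM x.n (adjBits x.G) u v = true → u < x.n ∧ v < x.n := by
    intro u v h
    obtain ⟨hu, hv, _⟩ := (t_G1 x.n x.G u v).mp h
    exact ⟨hu, hv⟩
  have hq : ∀ (F : List (Fin x.n × Fin x.n)) (a b : Fin x.n),
      qadj x.G.Adj (coll F) a b ↔ qadj (fun u v => adjM x.n (adjBits x.G) u v = true)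
        (coll (F.map fun e => ((e.1 : ℕ), (e.2 : ℕ)))) (a : ℕ) (b : ℕ) := by
    intro F a b
    unfold qadj
    rw [coll_val, coll_val]
    constructor
    · rintro ⟨h, u, v, h1, h2, h3⟩
      refine ⟨fun h' => h (Fin.ext h'), u, v, ?_, ?_, (hadj u v).mpr h3⟩
      · rw [coll_val, h1]
      · rw [coll_val, h2]
    · rintro ⟨h, u, v, h1, h2, h3⟩
      obtain ⟨hu, hv⟩ := hlt u v h3
      refine ⟨fun h' => h (congrArg Fin.val h'), ⟨u, hu⟩, ⟨v, hv⟩, ?_, ?_,
        (hadj ⟨u, hu⟩ ⟨v, hv⟩).mp h3⟩
      · apply Fin.ext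
        rw [← coll_val, ← h1]
      · apply Fin.ext
        rw [← coll_val, ← h2]
  constructor
  · rintro ⟨F, hk, hF, hfree⟩
    refine ⟨F.map fun e => ((e.1 : ℕ), (e.2 : ℕ)), by simpa using hk, ?_, ?_⟩
    · intro e he
      rw [List.mem_map] at he
      obtain ⟨e', he', rfl⟩ := he
      exact (hadj _ _).mpr (hF e' he')
    · intro a b c d hp
      have hFl : ∀ e ∈ (F.map fun e => ((e.1 : ℕ), (e.2 : ℕ))), e.1 < x.n ∧ e.2 < x.n := by
        intro e he
        rw [List.mem_map] at he
        obtain ⟨e', he', rfl⟩ := he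
        exact ⟨e'.1.2, e'.2.2⟩
      obtain ⟨ha, hb⟩ := qadj_lt x.n _ hlt _ hFl a b hp.1
      obtain ⟨hc, hd⟩ := qadj_lt x.n _ hlt _ hFl c d hp.2.2.1
      apply hfree ⟨a, ha⟩ ⟨b, hb⟩ ⟨c, hc⟩ ⟨d, hd⟩
      rw [pat_congr _ _ (hq F _ _) (hq F _ _) (hq F _ _) (hq F _ _) (hq F _ _) (hq F _ _)]
      exact hp
  · rintro ⟨F, hk, hF, hfree⟩
    obtain ⟨F₀, rfl⟩ := lift_list F fun e he => hlt _ _ (hF e he)
    refine ⟨F₀, by simpa using hk, ?_, ?_⟩
    · intro e he
      exact (hadj _ _).mp (hF _ (List.mem_map_of_mem he))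
    · intro a b c d hp
      apply hfree a b c d
      rw [pat_congr _ _ (hq F₀ _ _) (hq F₀ _ _) (hq F₀ _ _) (hq F₀ _ _) (hq F₀ _ _) (hq F₀ _ _)] at hp
      exact hp

theorem mem_allL' {α : Type} (A : List α) (m : ℕ) (l : List α) :
    l ∈ allL A m ↔ l.length = m ∧ ∀ a ∈ l, a ∈ A := by
  induction m generalizing l with
  | zero =>
    unfold allL
    rw [List.mem_singleton, List.length_eq_zero_iff]
    constructor
    · rintro rfl; exact ⟨rfl, by simp⟩
    · exact fun h => h.1
  | succ m ih =>
    unfold allL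
    rw [List.mem_flatMap]
    constructor
    · rintro ⟨l', hl', h⟩
      rw [List.mem_map] at h
      obtain ⟨a, ha, rfl⟩ := h
      obtain ⟨h1, h2⟩ := (ih l').mp hl'
      refine ⟨by simp [h1], ?_⟩
      intro b hb
      rw [List.mem_cons] at hb
      rcases hb with rfl | hb
      · exact ha
      · exact h2 b hb
    · rintro ⟨h1, h2⟩
      cases l with
      | nil => simp at h1
      | cons a l =>
        refine ⟨l, (ih l).mpr ⟨by simpa using h1, fun b hb => h2 b (List.mem_cons_of_mem _ hb)⟩, ?_⟩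
        rw [List.mem_map]
        exact ⟨a, h2 a List.mem_cons_self, rfl⟩

theorem mem_ipairs (m : ℕ) (e : ℕ × ℕ) : e ∈ ipairs m ↔ e.1 < m ∧ e.2 < m := by
  unfold ipairs
  simp only [List.mem_flatMap, List.mem_map, List.mem_range]
  constructor
  · rintro ⟨i, hi, j, hj, rfl⟩; exact ⟨hi, hj⟩
  · rintro ⟨hi, hj⟩; exact ⟨e.1, hi, e.2, hj, rfl⟩

theorem index_list (z : ℕ → ℕ) (m : ℕ) (F : List (ℕ × ℕ))
    (h : ∀ e ∈ F, (∃ i < m, z i = e.1) ∧ ∃ i < m, z i = e.2) :
    ∃ F₁ : List (ℕ × ℕ), (∀ e ∈ F₁, e.1 < m ∧ e.2 < m) ∧ (F₁.map fun e => (z e.1, z e.2)) = F := by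
  induction F with
  | nil => exact ⟨[], by simp, rfl⟩
  | cons e F ih =>
    obtain ⟨F₁, h1, h2⟩ := ih fun e' he' => h e' (List.mem_cons_of_mem _ he')
    obtain ⟨⟨i, hi, hi'⟩, j, hj, hj'⟩ := h e List.mem_cons_self
    refine ⟨(i, j) :: F₁, ?_, ?_⟩
    · intro e' he'
      rw [List.mem_cons] at he'
      rcases he' with rfl | he'
      · exact ⟨hi, hj⟩
      · exact h1 e' he'
    · rw [List.map_cons, h2, hi', hj']

theorem getD_of_mem (S : List ℕ) (v : ℕ) (hv : v ∈ S) : ∃ i < S.length, S.getD i 0 = v := by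
  obtain ⟨i, hi, h⟩ := List.getElem_of_mem hv
  exact ⟨i, hi, by rw [List.getD_eq_getElem _ _ hi, h]⟩

theorem t_R' (hC : S_C) (hI : S_I) : S_R := by
  intro x S hS
  rw [contr_nat hC x]
  set adj := adjM x.n (adjBits x.G) with hadjdef
  set s := S.length with hs
  have hlt : ∀ u v, adj u v = true → u < x.n ∧ v < x.n := by
    intro u v h
    obtain ⟨hu, hv, _⟩ := (t_G1 x.n x.G u v).mp h
    exact ⟨hu, hv⟩
  have hirr : ∀ u, adj u u ≠ true := by
    intro u h
    obtain ⟨_, _, h⟩ := (t_G1 x.n x.G u u).mp h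
    exact h.ne rfl
  have hnS : x.n ∉ S := fun h => absurd (hS _ h) (lt_irrefl _)
  have hmN : s + 2 * x.k ≤ Nn s x.k := by unfold Nn; omega
  constructor
  · rintro ⟨F', hk, hF', hfree⟩
    set W : List ℕ := F'.flatMap fun e => [e.1, e.2] with hW
    have hWl : W.length = 2 * F'.length := by
      rw [hW]
      generalize F' = L
      induction L with
      | nil => rfl
      | cons e L ih =>
        rw [List.flatMap_cons, List.length_append, ih]
        simp only [List.length_cons, List.length_nil]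
        ring
    have hWn : ∀ w ∈ W, w < x.n := by
      intro w hw
      rw [hW, List.mem_flatMap] at hw
      obtain ⟨e, he, h⟩ := hw
      have := hlt _ _ (hF' e he)
      simp only [List.mem_cons, List.not_mem_nil, or_false] at h
      rcases h with rfl | rfl
      · exact this.1
      · exact this.2
    let z : ℕ → ℕ := fun i => if i < s then S.getD i 0 else
      if W.getD (i - s) x.n ∈ S then x.n else W.getD (i - s) x.n
    have hz1 : ∀ i, i < s → z i = S.getD i 0 := fun i hi => if_pos hi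
    have hTup : Tup S (fun v => v ≤ x.n ∧ v ∉ S) z := by
      refine ⟨hz1, ?_⟩
      intro i hi
      have h1 : z i = if W.getD (i - s) x.n ∈ S then x.n else W.getD (i - s) x.n :=
        if_neg (by omega)
      rw [h1]
      split_ifs with h
      · exact ⟨le_rfl, hnS⟩
      · refine ⟨?_, h⟩
        by_cases hj : i - s < W.length
        · rw [List.getD_eq_getElem _ _ hj]
          exact (hWn _ (List.getElem_mem hj)).le
        · rw [List.getD_eq_default _ _ (by omega)]
    have hcov : ∀ w ∈ W, ∃ i < s + 2 * x.k, z i = w := by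
      intro w hw
      by_cases hwS : w ∈ S
      · obtain ⟨i, hi, h⟩ := getD_of_mem S w hwS
        exact ⟨i, by omega, by rw [hz1 i hi, h]⟩
      · obtain ⟨j, hj, h⟩ := List.getElem_of_mem hw
        refine ⟨s + j, by omega, ?_⟩
        have h1 : z (s + j) = if W.getD (s + j - s) x.n ∈ S then x.n else W.getD (s + j - s) x.n :=
          if_neg (by omega)
        have h2 : s + j - s = j := by omega
        rw [h1, h2, List.getD_eq_getElem _ _ hj, h, if_neg hwS]
    obtain ⟨F₁, hF₁, hF₁'⟩ := index_list z (s + 2 * x.k) F' (by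
      intro e he
      constructor
      · exact hcov _ (by rw [hW, List.mem_flatMap]; exact ⟨e, he, by simp⟩)
      · exact hcov _ (by rw [hW, List.mem_flatMap]; exact ⟨e, he, by simp⟩))
    have hF₁l : F₁.length = F'.length := by rw [← hF₁', List.length_map]
    set F := F₁ ++ List.replicate (x.k - F'.length) (0, 0) with hFdef
    have hFlt : ∀ e ∈ F, e.1 < s + 2 * x.k ∧ e.2 < s + 2 * x.k := by
      intro e he
      rw [hFdef, List.mem_append] at he
      rcases he with he | he
      · exact hF₁ e he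
      · rw [List.mem_replicate] at he
        obtain ⟨h1, rfl⟩ := he
        constructor <;> simp only <;> omega
    refine ⟨z, hTup, F, ?_, ?_⟩
    · rw [mem_allL']
      refine ⟨?_, fun e he => (mem_ipairs _ e).mpr (hFlt e he)⟩
      rw [hFdef, List.length_append, List.length_replicate, hF₁l]
      omega
    · intro z' hz' hagree
      have hmap : (F.map fun e => (z' e.1, z' e.2)) = F.map fun e => (z e.1, z e.2) := by
        apply List.map_congr_left
        intro e he
        rw [hagree _ (hFlt e he).1, hagree _ (hFlt e he).2]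
      have hmap2 : (F.map fun e => (z e.1, z e.2)) =
          F' ++ List.replicate (x.k - F'.length) (z 0, z 0) := by
        rw [hFdef, List.map_append, hF₁', List.map_replicate]
      have hcoll : coll (F.map fun e => (z' e.1, z' e.2)) = coll F' := by
        rw [hmap, hmap2, ← coll_filter, List.filter_append]
        have h1 : (List.replicate (x.k - F'.length) (z 0, z 0)).filter
            (fun e => decide (e.1 ≠ e.2)) = [] := by
          rw [List.filter_eq_nil_iff]
          intro e he
          rw [List.mem_replicate] at he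
          obtain ⟨_, rfl⟩ := he
          simp
        rw [h1, List.append_nil, coll_filter]
      rw [hI adj (Nn s x.k) F z' (fun e he => ⟨lt_of_lt_of_le (hFlt e he).1 hmN,
        lt_of_lt_of_le (hFlt e he).2 hmN⟩)]
      constructor
      · intro e he
        have h1 : (z' e.1, z' e.2) ∈ F.map fun e => (z' e.1, z' e.2) :=
          List.mem_map.mpr ⟨e, he, rfl⟩
        rw [hmap, hmap2, List.mem_append] at h1
        rcases h1 with h1 | h1
        · exact Or.inl (hF' _ h1)
        · rw [List.mem_replicate] at h1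
          obtain ⟨_, h1⟩ := h1
          rw [Prod.mk.injEq] at h1
          exact Or.inr (h1.1.trans h1.2.symm)
      · intro a ha b hb c hc d hd hp
        have hFN : ∀ e ∈ F, e.1 < Nn s x.k ∧ e.2 < Nn s x.k := fun e he =>
          ⟨lt_of_lt_of_le (hFlt e he).1 hmN, lt_of_lt_of_le (hFlt e he).2 hmN⟩
        rw [pat_congr _ _ (qadjZ_iff adj _ z' F hFN a b ha hb) (qadjZ_iff adj _ z' F hFN b c hb hc)
          (qadjZ_iff adj _ z' F hFN c d hc hd) (qadjZ_iff adj _ z' F hFN a c ha hc)
          (qadjZ_iff adj _ z' F hFN b d hb hd) (qadjZ_iff adj _ z' F hFN a d ha hd), hcoll] at hp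
        exact hfree _ _ _ _ hp
  · rintro ⟨z, hz, F, hFm, hpsi⟩
    rw [mem_allL'] at hFm
    obtain ⟨hFl, hFm⟩ := hFm
    have hFlt : ∀ e ∈ F, e.1 < s + 2 * x.k ∧ e.2 < s + 2 * x.k := fun e he =>
      (mem_ipairs _ e).mp (hFm e he)
    have hFN : ∀ e ∈ F, e.1 < Nn s x.k ∧ e.2 < Nn s x.k := fun e he =>
      ⟨lt_of_lt_of_le (hFlt e he).1 hmN, lt_of_lt_of_le (hFlt e he).2 hmN⟩
    have h0 := hpsi z hz (fun i _ => rfl)
    rw [hI adj (Nn s x.k) F z hFN] at h0
    obtain ⟨hedge, -⟩ := h0
    set F'' := F.map fun e => (z e.1, z e.2) with hF''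
    have hF'adj : ∀ e ∈ F''.filter (fun e => decide (e.1 ≠ e.2)), adj e.1 e.2 = true := by
      intro e he
      rw [List.mem_filter, hF'', List.mem_map] at he
      obtain ⟨⟨e', he', rfl⟩, hne⟩ := he
      rcases hedge e' he' with h | h
      · exact h
      · simp [h] at hne
    refine ⟨F''.filter fun e => decide (e.1 ≠ e.2), ?_, hF'adj, ?_⟩
    · refine (List.length_filter_le _ _).trans ?_
      rw [hF'', List.length_map, hFl]
    · intro a b c d hp
      have hFl' : ∀ e ∈ F''.filter (fun e => decide (e.1 ≠ e.2)), e.1 < x.n ∧ e.2 < x.n :=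
        fun e he => hlt _ _ (hF'adj e he)
      obtain ⟨ha, hb⟩ := qadj_lt x.n _ hlt _ hFl' a b hp.1
      obtain ⟨hc, hd⟩ := qadj_lt x.n _ hlt _ hFl' c d hp.2.2.1
      let st : ℕ → ℕ := fun v => if v ∈ S then x.n else v
      have hst : ∀ v < x.n, st v ≤ x.n ∧ st v ∉ S := by
        intro v hv
        by_cases h : v ∈ S
        · have : st v = x.n := if_pos h
          rw [this]; exact ⟨le_rfl, hnS⟩
        · have : st v = v := if_neg h
          rw [this]; exact ⟨hv.le, h⟩
      let z' : ℕ → ℕ := fun i => if i < s + 2 * x.k then z i else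
        if i = s + 2 * x.k then st a else if i = s + 2 * x.k + 1 then st b else
          if i = s + 2 * x.k + 2 then st c else st d
      have hz'1 : ∀ i, i < s + 2 * x.k → z' i = z i := fun i hi => if_pos hi
      have hz'a : z' (s + 2 * x.k) = st a := by
        change (if _ then _ else _) = _
        rw [if_neg (by omega), if_pos rfl]
      have hz'b : z' (s + 2 * x.k + 1) = st b := by
        change (if _ then _ else _) = _
        rw [if_neg (by omega), if_neg (by omega), if_pos rfl]
      have hz'c : z' (s + 2 * x.k + 2) = st c := by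
        change (if _ then _ else _) = _
        rw [if_neg (by omega), if_neg (by omega), if_neg (by omega), if_pos rfl]
      have hz'd : z' (s + 2 * x.k + 3) = st d := by
        change (if _ then _ else _) = _
        rw [if_neg (by omega), if_neg (by omega), if_neg (by omega), if_neg (by omega)]
      have hTup : Tup S (fun v => v ≤ x.n ∧ v ∉ S) z' := by
        constructor
        · intro i hi
          rw [hz'1 i (by omega)]
          exact hz.1 i hi
        · intro i hi
          by_cases h1 : i < s + 2 * x.k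
          · rw [hz'1 i h1]; exact hz.2 i hi
          · have h2 : z' i = if i = s + 2 * x.k then st a else if i = s + 2 * x.k + 1 then st b else
              if i = s + 2 * x.k + 2 then st c else st d := if_neg h1
            rw [h2]
            split_ifs
            · exact hst a ha
            · exact hst b hb
            · exact hst c hc
            · exact hst d hd
      have hfind : ∀ v i, v < x.n → i < Nn s x.k → z' i = st v → ∃ j < Nn s x.k, z' j = v := by
        intro v i hv hi h
        by_cases hvS : v ∈ S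
        · obtain ⟨j, hj, h1⟩ := getD_of_mem S v hvS
          refine ⟨j, by omega, ?_⟩
          rw [hz'1 j (by omega), hz.1 j hj, h1]
        · exact ⟨i, hi, by rw [h]; exact if_neg hvS⟩
      have hN : Nn s x.k = s + 2 * x.k + 4 := rfl
      obtain ⟨ia, hia, ea⟩ := hfind a _ ha (by omega) hz'a
      obtain ⟨ib, hib, eb⟩ := hfind b _ hb (by omega) hz'b
      obtain ⟨ic, hic, ec⟩ := hfind c _ hc (by omega) hz'c
      obtain ⟨i4, hid, ed⟩ := hfind d _ hd (by omega) hz'd
      have h1 := hpsi z' hTup hz'1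
      rw [hI adj (Nn s x.k) F z' hFN] at h1
      apply h1.2 ia hia ib hib ic hic i4 hid
      have hmap : (F.map fun e => (z' e.1, z' e.2)) = F'' := by
        rw [hF'']
        apply List.map_congr_left
        intro e he
        rw [hz'1 _ (hFlt e he).1, hz'1 _ (hFlt e he).2]
      rw [pat_congr _ _ (qadjZ_iff adj _ z' F hFN ia ib hia hib)
        (qadjZ_iff adj _ z' F hFN ib ic hib hic) (qadjZ_iff adj _ z' F hFN ic i4 hic hid)
        (qadjZ_iff adj _ z' F hFN ia ic hia hic) (qadjZ_iff adj _ z' F hFN ib i4 hib hid)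
        (qadjZ_iff adj _ z' F hFN ia i4 hia hid), hmap, ← coll_filter F'', ea, eb, ec, ed]
      exact hp

theorem t_R (hI : S_I) : S_R := t_R' t_C hI

end Pool.Agent.J4H23.PF
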